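import Mathlib

set_option autoImplicit false

/-!
# Peeling: definitions

`V` is the set of processors, `S` the participants of one level, `M p t` the set of processors
known to `p` after tick `t` (`t = 0`: at the beginning), `TL i p` the list of `p` for ticks of
type `i`, `2 ^ I` the number of ticks.  Labels are functions `g : V → ℕ`; two processors are in
the same class modulo `2 ^ b` if their labels are congruent modulo `2 ^ b`.
-/

namespace Pool.Agent.P217

open Finset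

/-- The type of tick `t`. -/
def typ (I t : ℕ) : ℕ := I - padicValNat 2 t

section

variable {V : Type*} [DecidableEq V]

/-- The number of classes modulo `2 ^ b` of the label `g` that meet `U`. -/
def ncl (g : V → ℕ) (b : ℕ) (U : Finset V) : ℕ := (U.image fun y => g y % 2 ^ b).card

/-- The class of `x` modulo `2 ^ b`. -/
def cls [Fintype V] (g : V → ℕ) (b : ℕ) (x : V) : Finset V :=
  univ.filter fun y => g y % 2 ^ b = g x % 2 ^ b

end

/-- The participants of one level, their knowledge and their lists. -/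
structure Lvl (V : Type*) [DecidableEq V] where
  S : Finset V
  I : ℕ
  M : V → ℕ → Finset V
  TL : ℕ → V → Finset V
  self : ∀ p ∈ S, p ∈ M p 0
  mono : ∀ p ∈ S, ∀ t, t < 2 ^ I → M p t ⊆ M p (t + 1)
  anti : ∀ i j p, i ≤ j → TL j p ⊆ TL i p
  dekker : ∀ p ∈ S, ∀ q ∈ S, p ≠ q → ∀ t t', 1 ≤ t → t ≤ 2 ^ I → 1 ≤ t' → t' ≤ 2 ^ I →
    q ∈ TL (typ I t) p → p ∈ TL (typ I t') q → M p (t - 1) ⊆ M q t' ∨ M q (t' - 1) ⊆ M p t

namespace Lvl

variable {V : Type*} [DecidableEq V] (X : Lvl V)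

/-- At the end of tick `t` (not before tick `s p`) `p` knows everything that some other
participant `q` of its class modulo `2 ^ a` knew after tick `s q`. -/
def Hears (s : V → ℕ) (g : V → ℕ) (a : ℕ) (p : V) (t : ℕ) : Prop :=
  s p ≤ t ∧ ∃ q ∈ X.S, q ≠ p ∧ g q % 2 ^ a = g p % 2 ^ a ∧ s q ≤ 2 ^ X.I ∧
    X.M q (s q) ⊆ X.M p t

theorem ev_ex (s : V → ℕ) (g : V → ℕ) (a : ℕ) (p : V) :
    ∃ t, 2 ^ X.I < t ∨ X.Hears s g a p t := ⟨2 ^ X.I + 1, Or.inl (Nat.lt_succ_self _)⟩

open Classical in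
/-- The first tick at which `p` hears; `2 ^ I + 1` if there is none. -/
noncomputable def ev (s : V → ℕ) (g : V → ℕ) (a : ℕ) (p : V) : ℕ := Nat.find (X.ev_ex s g a p)

open Classical in
/-- The number of labels `r < R` in which `p` has heard at tick `t`. -/
noncomputable def cev (s : V → ℕ) (R : ℕ) (g : ℕ → V → ℕ) (a : ℕ) (p : V) (t : ℕ) : ℕ :=
  ((range R).filter fun r => X.ev s (g r) a p ≤ t).card

theorem med_ex (s : V → ℕ) (R : ℕ) (g : ℕ → V → ℕ) (a : ℕ) (p : V) :
    ∃ t, 2 ^ X.I < t ∨ R ≤ 2 * X.cev s R g a p t := ⟨2 ^ X.I + 1, Or.inl (Nat.lt_succ_self _)⟩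

open Classical in
/-- The first tick at which `p` has heard in half of the labels `g r`, `r < R`; `2 ^ I + 1` if
there is none. -/
noncomputable def med (s : V → ℕ) (R : ℕ) (g : ℕ → V → ℕ) (a : ℕ) (p : V) : ℕ :=
  Nat.find (X.med_ex s R g a p)

/-- The ticks of the steps: `tt j p` is the tick at which `p` is peeled in step `j`. -/
noncomputable def tt (R : ℕ → ℕ) (g : ℕ → ℕ → V → ℕ) (a : ℕ → ℕ) : ℕ → V → ℕ
  | 0 => fun _ => 0
  | j + 1 => X.med (tt R g a j) (R (j + 1)) (g (j + 1)) (a (j + 1))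

end Lvl

/-- Tick lists for level `l` with `2 ^ I` ticks, cost `Ct` and the counting theorem with constant
`Nc`. -/
structure Ticks (n l I Nc Ct : ℕ) where
  TL : ℕ → Fin n → Finset (Fin n)
  self : ∀ i p, p ∈ TL i p
  symm : ∀ i p q, q ∈ TL i p → p ∈ TL i q
  anti : ∀ i j p, i ≤ j → TL j p ⊆ TL i p
  cost : ∀ p, 2 ^ l * ∑ t ∈ Icc 1 (2 ^ I), (TL (typ I t) p).card ≤ Ct
  few : ∀ X : Lvl (Fin n), X.I = I → X.TL = TL →
    (∀ p ∈ X.S, (X.M p (2 ^ I)).card < 2 ^ (l + 5)) → X.S.card ≤ Nc * 2 ^ l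

end Pool.Agent.P217
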